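import Mathlib
import Pool.Agent.MP_3fed84_gt.Key2
import Pool.Agent.MP_3fed84_gt.LemM
import Pool.Agent.MP_3fed84_gt.Bridge

-- part MP_3fed84_gt.Star
section

/-! The star-shaped region: a lemma of Euclidean geometry. -/

open Set Metric Filter Topology

namespace Pool.Agent.MP_3fed84_gt

variable {E : Type} [NormedAddCommGroup E] [InnerProductSpace ℝ E]

/-- The union of the ice-cream cones with vertex 0 and axes -v. -/
def cones (V : Set E) (τ : ℝ) : Set E :=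
  {z | ∃ v ∈ V, ∃ t ∈ Icc (0 : ℝ) τ, ‖z + t • v‖ ≤ (9 / 10) * t}

/-- The point at distance t behind x on the ray through x. -/
noncomputable def bk (x : E) (t : ℝ) : E := (‖x‖ - t) • (‖x‖⁻¹ • x)

theorem norm_bk {x : E} {t : ℝ} (hx : 0 < ‖x‖) (ht : t ≤ ‖x‖) : ‖bk x t‖ = ‖x‖ - t := by
  rw [bk, norm_smul, norm_smul, norm_inv, norm_norm, inv_mul_cancel₀ hx.ne', mul_one,
    Real.norm_of_nonneg (sub_nonneg.2 ht)]

theorem inner_gt_of_not_mem_cones {V : Set E} {τ : ℝ} {z v : E} (hv : v ∈ V) (hv1 : ‖v‖ = 1)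
    (hz : z ∉ cones V τ) (hzτ : 23 / 10 * ‖z‖ ≤ τ) : -(inner ℝ z v) < 44 / 100 * ‖z‖ := by
  by_contra h
  refine hz ⟨v, hv, 23 / 10 * ‖z‖, ⟨by positivity, hzτ⟩, ?_⟩
  refine (pow_le_pow_iff_left₀ (norm_nonneg _) (by positivity) two_ne_zero).1 ?_
  rw [norm_add_sq_real, norm_smul, hv1, inner_smul_right, Real.norm_of_nonneg (by positivity)]
  have := norm_nonneg z
  nlinarith

theorem star {T : Set E} {B : E → E} {V : Set E} {R b τ : ℝ} (hb : 0 < b) (hbτ : 100 * b ≤ τ)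
    (hτR : 2 * τ ≤ R) (hV : ∀ v ∈ V, ‖v‖ = 1)
    (hT : ∀ x ∈ T, R - τ / 100 ≤ ‖x‖)
    (T1 : ∀ x ∈ T, ∀ t ∈ Icc (0 : ℝ) τ, (∀ s ∈ Icc (0 : ℝ) t, ‖B (bk x s)‖ ≤ b) → bk x t ∈ T)
    (T2 : ∀ x ∈ T, ∀ z : E, ‖z‖ ≤ b → ‖x‖ + (101 / 100) * ‖B x - z‖ ≤ R + b →
      ∃ x' ∈ T, B x' = z ∧ ‖x'‖ ≤ ‖x‖ + (101 / 100) * ‖B x - z‖)
    (T3 : ∀ x ∈ T, ∃ v ∈ V, ∀ t ∈ Icc (0 : ℝ) τ, ‖B (bk x t) - (B x - t • v)‖ ≤ t / 100)
    (T4 : ∃ x ∈ T, B x = 0 ∧ ‖x‖ ≤ R) :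
    ∃ U : Set E, U ⊆ closedBall 0 (2 * τ) ∧ U ∈ 𝓝 (0 : E) ∧
      (∀ z ∈ U, ∀ s ∈ Icc (0 : ℝ) 1, s • z ∈ U) ∧ cones V τ ⊆ U ∧
      ∀ z ∈ U, z ∈ cones V τ ∨ ∃ x ∈ T, B x = z ∧ ∀ t ∈ Icc (0 : ℝ) τ, B (bk x t) ∈ U := by
  obtain ⟨x0, hx0, hB0, hx0R⟩ := T4
  set A : Set ℝ := {r | ∃ x ∈ T, B x = 0 ∧ ‖x‖ = r} with hA
  have hAne : A.Nonempty := ⟨_, x0, hx0, hB0, rfl⟩
  have hAb : BddBelow A := ⟨0, by rintro _ ⟨x, -, -, rfl⟩; exact norm_nonneg x⟩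
  set u := sInf A
  have hu : ∀ x ∈ T, B x = 0 → u ≤ ‖x‖ := fun x h1 h2 => csInf_le hAb ⟨x, h1, h2, rfl⟩
  have huR : u ≤ R := (hu x0 hx0 hB0).trans hx0R
  have hbk : ∀ x ∈ T, ∀ t ≤ τ, ‖bk x t‖ = ‖x‖ - t := fun x hx t ht => by
    have := hT x hx
    exact norm_bk (by linarith) (by linarith)
  have hB : ∀ x : E, ∀ v ∈ V, (∀ t ∈ Icc (0 : ℝ) τ, ‖B (bk x t) - (B x - t • v)‖ ≤ t / 100) →
      ∀ t ∈ Icc (0 : ℝ) τ, ‖B (bk x t)‖ ≤ ‖B x‖ + 101 / 100 * t := by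
    intro x v hv h t ht
    have h1 := norm_le_insert' (B (bk x t)) (B x - t • v)
    have h2 := norm_sub_le (B x) (t • v)
    rw [norm_smul, hV v hv, Real.norm_of_nonneg ht.1] at h2
    have := h t ht
    linarith
  have key : ∀ x ∈ T, ‖B x‖ ≤ b / 20 → ‖B x‖ + 5 / 4 * (‖x‖ - u) ≤ b / 500 → B x ∉ cones V τ →
      ∀ s ∈ Icc (0 : ℝ) 1, ∃ x' ∈ T, B x' = s • B x ∧ ‖x'‖ ≤ ‖x‖ + 7 / 10 * ((1 - s) * ‖B x‖) := by
    intro x hx h1 h2 h3 s hs
    obtain ⟨v, hv, h4⟩ := T3 x hx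
    have hz := norm_nonneg (B x)
    have h5 := inner_gt_of_not_mem_cones hv (hV v hv) h3 (by linarith)
    set d := (1 - s) * ‖B x‖ with hd
    have hd0 : 0 ≤ d := mul_nonneg (sub_nonneg.2 hs.2) hz
    have hd1 : d ≤ ‖B x‖ := by nlinarith [hs.1]
    have ht : 10 * d ∈ Icc (0 : ℝ) τ := ⟨by linarith, by linarith⟩
    have h6 : bk x (10 * d) ∈ T := T1 x hx _ ht fun r hr => by
      have := hB x v hv h4 r ⟨hr.1, hr.2.trans ht.2⟩
      linarith [hr.2]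
    have h7 : ‖(1 - s) • B x - (10 * d) • v‖ ≤ 1049 / 100 * d := by
      refine (pow_le_pow_iff_left₀ (norm_nonneg _) (by positivity) two_ne_zero).1 ?_
      rw [norm_sub_sq_real, norm_smul, norm_smul, hV v hv, inner_smul_right, inner_smul_left,
        Real.norm_of_nonneg (sub_nonneg.2 hs.2), Real.norm_of_nonneg ht.1, ← hd]
      simp only [conj_trivial]
      have h8 : -((1 - s) * inner ℝ (B x) v) ≤ 44 / 100 * d := by
        rw [hd]; nlinarith [sub_nonneg.2 hs.2]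
      nlinarith
    have h9 : ‖B (bk x (10 * d)) - s • B x‖ ≤ 1059 / 100 * d := by
      have e : B (bk x (10 * d)) - s • B x =
          (B (bk x (10 * d)) - (B x - (10 * d) • v)) + ((1 - s) • B x - (10 * d) • v) := by
        module
      rw [e]
      have := h4 _ ht
      linarith [norm_add_le (B (bk x (10 * d)) - (B x - (10 * d) • v))
        ((1 - s) • B x - (10 * d) • v)]
    have h10 := hbk x hx _ ht.2
    obtain ⟨x', a1, a2, a3⟩ := T2 _ h6 (s • B x) (by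
      rw [norm_smul, Real.norm_of_nonneg hs.1]; nlinarith [hs.2]) (by linarith)
    exact ⟨x', a1, a2, by linarith⟩
  refine ⟨cones V τ ∪ {z | ∃ x ∈ T, B x = z ∧ ‖z‖ ≤ b / 20 ∧ ‖z‖ + 5 / 4 * (‖x‖ - u) ≤ b / 500},
    ?_, ?_, ?_, subset_union_left, ?_⟩
  · rintro z (⟨v, hv, t, ht, h⟩ | ⟨x, -, -, h, -⟩) <;> rw [mem_closedBall_zero_iff]
    · have h1 := norm_le_add_norm_add z (t • v)
      rw [norm_smul, hV v hv, Real.norm_of_nonneg ht.1] at h1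
      linarith [ht.1, ht.2]
    · linarith
  · obtain ⟨_, ⟨x, hx, h1, rfl⟩, h2⟩ := Real.lt_sInf_add_pos hAne (show 0 < b / 5000 by positivity)
    refine mem_of_superset (closedBall_mem_nhds 0 (show 0 < b / 2000 by positivity))
      fun z hz => Or.inr ?_
    rw [mem_closedBall_zero_iff] at hz
    obtain ⟨x', a1, a2, a3⟩ := T2 x hx z (by linarith)
      (by rw [h1, zero_sub, norm_neg]; linarith)
    rw [h1, zero_sub, norm_neg] at a3
    exact ⟨x', a1, a2, by linarith, by linarith⟩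
  · have hc : ∀ z ∈ cones V τ, ∀ s ∈ Icc (0 : ℝ) 1, s • z ∈ cones V τ := by
      rintro z ⟨v, hv, t, ht, h⟩ s hs
      refine ⟨v, hv, s * t, ⟨mul_nonneg hs.1 ht.1, by nlinarith [hs.1, hs.2, ht.1, ht.2]⟩, ?_⟩
      rw [mul_smul, ← smul_add, norm_smul, Real.norm_of_nonneg hs.1]
      nlinarith [hs.1]
    intro z hz s hs
    by_cases hz' : z ∈ cones V τ
    · exact Or.inl (hc z hz' s hs)
    · obtain ⟨x, hx, rfl, h1, h2⟩ := hz.resolve_left hz'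
      obtain ⟨x', a1, a2, a3⟩ := key x hx h1 h2 hz' s hs
      have hz := norm_nonneg (B x)
      refine Or.inr ⟨x', a1, a2, ?_, ?_⟩ <;> rw [norm_smul, Real.norm_of_nonneg hs.1] <;>
        nlinarith [hs.1, hs.2]
  · intro z hz
    by_cases hz' : z ∈ cones V τ
    · exact Or.inl hz'
    obtain ⟨x, hx, rfl, h1, h2⟩ := hz.resolve_left hz'
    refine Or.inr ⟨x, hx, rfl, fun t ht => ?_⟩
    obtain ⟨x', a1, a2, a3⟩ := key x hx h1 h2 hz' 0 ⟨le_rfl, zero_le_one⟩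
    have h3 := hu x' a1 (by rw [a2, zero_smul])
    obtain ⟨v, hv, h4⟩ := T3 x hx
    have hz := norm_nonneg (B x)
    rcases le_total t (2 * ‖B x‖) with h | h
    · have h5 := hB x v hv h4 t ht
      have h6 := hbk x hx t ht.2
      refine Or.inr ⟨_, T1 x hx t ht fun r hr => ?_, rfl, by linarith, by linarith [ht.1]⟩
      have := hB x v hv h4 r ⟨hr.1, hr.2.trans ht.2⟩
      linarith [hr.2]
    · refine Or.inl ⟨v, hv, t, ht, ?_⟩
      have e : B (bk x t) + t • v = (B (bk x t) - (B x - t • v)) + B x := by abel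
      rw [e]
      have := h4 t ht
      linarith [norm_add_le (B (bk x t) - (B x - t • v)) (B x), ht.1]

end Pool.Agent.MP_3fed84_gt

end

-- part MP_3fed84_gt.Key3
section

/-! Horizontal chains over the cones. -/

open Set Metric Filter Topology
open scoped ContDiff RealInnerProductSpace

set_option linter.unusedSectionVars false

namespace Pool.Agent.MP_3fed84_gt

variable {E : Type} [NormedAddCommGroup E] [InnerProductSpace ℝ E] [FiniteDimensional ℝ E]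
  {M N : Type} [TopologicalSpace M] [TopologicalSpace N] [T2Space M] [T2Space N]
  [PreconnectedSpace M] [PreconnectedSpace N]
  {𝒜 : Atlas E M} {ℬ : Atlas E N} {e₁ : E → M} {e₂ : E → N}

namespace Ctx

variable (X : Ctx 𝒜 ℬ e₁ e₂)

/-- Uniform control of the chart expression of e₁ near K. -/
def Unif (τ₁ C₁ : ℝ) : Prop := ∀ x ∈ X.K, ∀ y ∈ closedBall x τ₁,
  y ∈ X.D ∧ ‖fderiv ℝ X.B y‖ ≤ C₁ ∧ ‖fderiv ℝ X.B y - fderiv ℝ X.B x‖ ≤ 1 / 1000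

theorem exists_unif (hK : ∀ x ∈ X.K, ‖x‖ = X.R) : ∃ τ₁ > 0, ∃ C₁ ≥ 1, X.Unif τ₁ C₁ := by
  obtain ⟨δ, hδ, hsub⟩ := X.isCompact_K.exists_cthickening_subset_open X.isOpen_D
    fun x hx => (X.K_const hK hx).1
  have hcp : IsCompact (cthickening δ X.K) := X.isCompact_K.cthickening
  have hcont : ContinuousOn (fderiv ℝ X.B) (cthickening δ X.K) := fun y hy =>
    ((X.B_smooth (hsub hy)).fderiv_right (m := 0) (by norm_cast)).continuousAt.continuousWithinAt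
  obtain ⟨C, hC⟩ := hcp.exists_bound_of_continuousOn hcont
  obtain ⟨δ₂, hδ₂, hu⟩ := Metric.uniformContinuousOn_iff_le.1
    (hcp.uniformContinuousOn_of_continuous hcont) (1 / 1000) (by norm_num)
  refine ⟨min δ δ₂, lt_min hδ hδ₂, max C 1, le_max_right _ _, fun x hx y hy => ?_⟩
  have hy' : y ∈ cthickening δ X.K := mem_cthickening_of_dist_le y x δ X.K hx
    ((mem_closedBall.1 hy).trans (min_le_left _ _))
  refine ⟨hsub hy', (hC y hy').trans (le_max_left _ _), ?_⟩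
  rw [← dist_eq_norm]
  exact hu y hy' x (self_subset_cthickening _ hx) ((mem_closedBall.1 hy).trans (min_le_right _ _))

theorem Unif.approx {X : Ctx 𝒜 ℬ e₁ e₂} {τ₁ C₁ : ℝ} (hu : X.Unif τ₁ C₁) {x : E} (hx : x ∈ X.K)
    {a b : E} (ha : a ∈ closedBall x τ₁) (hb : b ∈ closedBall x τ₁) :
    ‖X.B b - X.B a - fderiv ℝ X.B x (b - a)‖ ≤ 1 / 1000 * ‖b - a‖ :=
  (convex_closedBall x τ₁).norm_image_sub_le_of_norm_fderiv_le'
    (fun y hy => (X.B_smooth (hu x hx y hy).1).differentiableAt (by simp))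
    (fun y hy => (hu x hx y hy).2.2) ha hb

/-- The unit vector in the direction of x ∈ K. -/
noncomputable def dir (x : E) : E := X.R⁻¹ • x

/-- The terminal velocity of the ray through x ∈ K. -/
noncomputable def v (x : E) : E := fderiv ℝ X.B x (X.dir x)

theorem norm_dir {x : E} (hx : ‖x‖ = X.R) : ‖X.dir x‖ = 1 := by
  rw [dir, norm_smul, norm_inv, Real.norm_eq_abs, abs_of_pos X.hR, hx, inv_mul_cancel₀ X.hR.ne']

theorem smul_dir (x : E) : X.R • X.dir x = x := by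
  rw [dir, smul_smul, mul_inv_cancel₀ X.hR.ne', one_smul]

theorem norm_v (hK : ∀ x ∈ X.K, ‖x‖ = X.R) {x : E} (hx : x ∈ X.K) : ‖X.v x‖ = 1 := by
  have h1 := X.h.ex₁.speed X.hc (θ := X.dir x) (t := X.R)
    (by rw [X.smul_dir, X.e₁_of_K hx]; exact X.hn.1)
  rw [X.smul_dir, X.e₁_of_K hx, X.hn.2.1, X.hn.2.2, X.norm_dir (hK x hx),
    real_inner_self_eq_norm_sq] at h1
  exact (pow_left_inj₀ (norm_nonneg _) zero_le_one two_ne_zero).1 h1

theorem e₂_of_K (hK : ∀ x ∈ X.K, ‖x‖ = X.R) {x : E} (hx : x ∈ X.K) : e₂ x = e₂ X.x₀ := by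
  obtain ⟨h1, h2⟩ := X.K_const hK hx
  exact X.c'.ψ.injOn h1.2.2.1 X.hn'.1 (congrArg Prod.fst h2)

theorem d_seg {y z : E} (hy : y ∈ closedBall (0 : E) X.ρ) (hz : z ∈ closedBall (0 : E) X.ρ) :
    𝒜.d (X.c.ψ.symm y) (X.c.ψ.symm z) ≤ 101 / 100 * ‖z - y‖ := by
  refine d_le_of_segment X.hc (by positivity) fun x hx => ?_
  have := X.hρb x ((convex_closedBall (0 : E) X.ρ).segment_subset hy hz hx)
  exact ⟨this.1, (this.2 _).1⟩

/-- The segment from x ∈ K to a point near the ray behind x lies over the cone of x. -/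
theorem conn_across (hK : ∀ x ∈ X.K, ‖x‖ = X.R) {τ₁ C₁ τ : ℝ} (hu : X.Unif τ₁ C₁) (hC₁ : 1 ≤ C₁)
    (hτ : 2 * τ ≤ τ₁) {U : Set E} (hU : cones (X.v '' X.K) τ ⊆ U) {x : E} (hx : x ∈ X.K) {t : ℝ}
    (ht : t ∈ Icc 0 τ) {y : E} (hy : ‖y‖ ≤ X.R) (he : C₁ * ‖y - (x - t • X.dir x)‖ ≤ t / 2) :
    Conn X.w (U ×ˢ X.Q) (0, X.q X.x₀) (C₁ * (2 * t)) (X.B y, X.q y) := by
  set e := y - (x - t • X.dir x) with hedef
  have he1 : ‖e‖ ≤ t / 2 := by nlinarith [norm_nonneg e]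
  have hyx : y - x = e - t • X.dir x := by rw [hedef]; abel
  have hn : ‖y - x‖ ≤ 2 * t := by
    rw [hyx]
    refine (norm_sub_le _ _).trans ?_
    rw [norm_smul, X.norm_dir (hK x hx), Real.norm_eq_abs, abs_of_nonneg ht.1]
    linarith [ht.1]
  have hτ₁ : 0 ≤ τ₁ := by linarith [ht.1, ht.2]
  have hyb : y ∈ closedBall x τ₁ := by
    rw [mem_closedBall, dist_eq_norm]; linarith [ht.2]
  have h1 := X.conn_seg (U := U) (p₀ := (0, X.q X.x₀)) (l := 0) (lam := C₁ * (2 * t))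
    (by have := ht.1; positivity) (hK x hx).le hy (fun s hs => by
      have h2 : x + s • (y - x) ∈ closedBall x τ₁ :=
        (convex_closedBall x τ₁).add_smul_sub_mem (mem_closedBall_self hτ₁) hyb hs
      refine ⟨(hu x hx _ h2).1, hU ⟨X.v x, ⟨x, hx, rfl⟩, s * t,
        ⟨mul_nonneg hs.1 ht.1, by nlinarith [hs.2, ht.1, ht.2]⟩, ?_⟩,
        ((fderiv ℝ X.B _).le_opNorm _).trans (mul_le_mul (hu x hx _ h2).2.1 hn (norm_nonneg _)
          (by linarith))⟩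
      have h3 := hu.approx hx (mem_closedBall_self hτ₁) h2
      rw [X.B_of_K hx, sub_zero, add_sub_cancel_left, norm_smul, Real.norm_eq_abs,
        abs_of_nonneg hs.1] at h3
      have h4 : X.B (x + s • (y - x)) + (s * t) • X.v x
          = (X.B (x + s • (y - x)) - fderiv ℝ X.B x (s • (y - x))) + s • fderiv ℝ X.B x e := by
        have h9 : fderiv ℝ X.B x (s • (y - x)) = s • fderiv ℝ X.B x e - (s * t) • X.v x := by
          rw [map_smul, hyx, map_sub, map_smul, v, mul_smul, smul_sub]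
        rw [h9]
        abel
      have h5 : ‖fderiv ℝ X.B x e‖ ≤ t / 2 := ((fderiv ℝ X.B x).le_opNorm _).trans
        ((mul_le_mul_of_nonneg_right (hu x hx x (mem_closedBall_self hτ₁)).2.1
          (norm_nonneg _)).trans he)
      rw [h4]
      refine (norm_add_le _ _).trans ?_
      rw [norm_smul, Real.norm_eq_abs, abs_of_nonneg hs.1]
      have h6 : s * ‖y - x‖ ≤ s * (2 * t) := mul_le_mul_of_nonneg_left hn hs.1
      have h7 : s * ‖fderiv ℝ X.B x e‖ ≤ s * (t / 2) := mul_le_mul_of_nonneg_left h5 hs.1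
      nlinarith [mul_nonneg hs.1 ht.1])
    (by rw [X.B_of_K hx, (X.K_const hK hx).2]; exact Conn.base)
  rwa [zero_add] at h1

theorem jet_props {ξ : Gm 𝒜 ℬ} (h1 : ξ.pt ∈ X.c.ψ.source)
    (h2 : X.c.ψ ξ.pt ∈ closedBall (0 : E) X.ρ) (h3 : ξ.ev ∈ X.c'.bl X.β) :
    ξ.jet X.c X.c' ∈ X.Q ∧ (X.c.ψ ξ.pt, ξ.jet X.c X.c') ∈ Leaf X.w ∩ X.O ∧
      ∀ a b, X.c'.G (ξ.jet X.c X.c').1 ((ξ.jet X.c X.c').2 a) ((ξ.jet X.c X.c').2 b)
        = X.c.G (X.c.ψ ξ.pt) a b := by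
  have hr := ξ.rep_fn
  have h4 := hr.li.coord X.hc X.hc' h1 h3.1
  have h5 := h4.self_of_nhds
  have hiso : ∀ a b, X.c'.G (ξ.jet X.c X.c').1 ((ξ.jet X.c X.c').2 a) ((ξ.jet X.c X.c').2 b)
      = X.c.G (X.c.ψ ξ.pt) a b := by
    rw [hr.jet X.c' h1]
    exact h5.2.2.2
  have hQ : ξ.jet X.c X.c' ∈ X.Q := ⟨ball_subset_closedBall h3.2, by
    rw [mem_closedBall_zero_iff]
    exact (X.norm_le_two h2 (ball_subset_closedBall h3.2) hiso).trans (by norm_num)⟩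
  refine ⟨hQ, ⟨⟨fun z => (X.c.ex X.c' ξ.fn z, fderiv ℝ (X.c.ex X.c' ξ.fn) z),
    (hr.jet X.c' h1).symm, ?_⟩, X.Z_subset ⟨h2, hQ⟩⟩, hiso⟩
  filter_upwards [eventually_eventually_nhds.2 h4] with z hz
  have h6 := hz.self_of_nhds
  exact jet_hasFDerivAt X.c.chr X.c'.chr h6.1 h6.2.1 (h6.2.2.1.of_le (by norm_cast))
    (hz.mono fun z hz => hz.2.2.2)

/-- The property required of the point chosen over z. -/
def Fam (U : Set E) (l : ℝ) (z : E) : Prop :=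
  ∃ q l', l' ≤ l ∧ (z, q) ∈ closure (Leaf X.w ∩ X.O) ∧
    Conn X.w (U ×ˢ X.Q) (0, X.q X.x₀) l' (z, q) ∧
    ∀ a b, X.c'.G q.1 (q.2 a) (q.2 b) = X.c.G z a b

theorem fam_cone (hK : ∀ x ∈ X.K, ‖x‖ = X.R) {τ₁ C₁ τ : ℝ} (hu : X.Unif τ₁ C₁) (hC₁ : 1 ≤ C₁)
    (hτ : 2 * τ ≤ τ₁) (hτR : 2 * τ ≤ X.R) (hτρ : 2 * τ ≤ X.ρ)
    (hτN : ∀ n, ℬ.d (e₂ X.x₀) n ≤ 2 * τ → n ∈ X.c'.bl X.β)
    {U : Set E} (hU : cones (X.v '' X.K) τ ⊆ U) {z : E} (hz : z ∈ cones (X.v '' X.K) τ) :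
    X.Fam U ((C₁ + 1) * (2 * τ)) z := by
  obtain ⟨_, ⟨x, hx, rfl⟩, t, ht, hzt⟩ := hz
  have hxD := (X.K_const hK hx).1
  rcases ht.1.eq_or_lt with rfl | ht0
  · have hz0 : z = 0 := by simpa using hzt
    subst hz0
    refine ⟨X.q X.x₀, 0, by have := ht.2; positivity, ?_, Conn.base, ?_⟩
    · have := X.q_leaf X.x₀_mem_D
      rwa [X.B_of_K X.x₀_mem_K] at this
    · have := (X.hA _ X.x₀_ne X.hn.1 X.hn'.1).1
      rw [X.hn.2.1] at this
      exact this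
  set y := x - t • X.dir x with hy
  have hy' : y = (X.R - t) • X.dir x := by rw [hy, sub_smul, X.smul_dir]
  have hyn : ‖y‖ = X.R - t := by
    rw [hy', norm_smul, X.norm_dir (hK x hx), Real.norm_eq_abs, abs_of_nonneg (by linarith [ht.2]),
      mul_one]
  have hτ₁ : 0 ≤ τ₁ := by linarith [ht.2]
  have hyx : ‖y - x‖ = t := by
    rw [hy, sub_sub_cancel_left, norm_neg, norm_smul, X.norm_dir (hK x hx), Real.norm_eq_abs,
      abs_of_pos ht0, mul_one]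
  have hyb : y ∈ closedBall x τ₁ := by
    rw [mem_closedBall, dist_eq_norm, hyx]; linarith [ht.2]
  have hyD := (hu x hx y hyb).1
  have hc1 := X.conn_across hK hu hC₁ hτ hU hx ht (y := y) (by rw [hyn]; linarith)
    (by rw [← hy, sub_self, norm_zero, mul_zero]; linarith)
  have hw : ‖X.B y + t • X.v x‖ ≤ 1 / 1000 * t := by
    have h3 := hu.approx hx (mem_closedBall_self hτ₁) hyb
    rw [X.B_of_K hx, sub_zero, hyx, hy, sub_sub_cancel_left, map_neg, map_smul, sub_neg_eq_add]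
      at h3
    exact h3
  set p : ℝ → E := fun s => X.B y + s • (z - X.B y) with hp
  have hpin : ∀ s ∈ Icc (0 : ℝ) 1, ‖p s + t • X.v x‖ ≤ 9 / 10 * t := by
    intro s hs
    have h1 : p s ∈ closedBall (-(t • X.v x)) (9 / 10 * t) := by
      refine (convex_closedBall _ _).add_smul_sub_mem ?_ ?_ hs
      · rw [mem_closedBall, dist_eq_norm, sub_neg_eq_add]; linarith
      · rw [mem_closedBall, dist_eq_norm, sub_neg_eq_add]; exact hzt
    rwa [mem_closedBall, dist_eq_norm, sub_neg_eq_add] at h1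
  have hpρ : ∀ s ∈ Icc (0 : ℝ) 1, p s ∈ closedBall (0 : E) X.ρ := by
    intro s hs
    rw [mem_closedBall_zero_iff]
    have h1 := norm_sub_le (p s + t • X.v x) (t • X.v x)
    rw [add_sub_cancel_right, norm_smul, X.norm_v hK hx, Real.norm_eq_abs, abs_of_pos ht0] at h1
    linarith [hpin s hs, ht.2]
  have hzw : ‖z - X.B y‖ ≤ 901 / 1000 * t := by
    have h1 := norm_sub_le (z + t • X.v x) (X.B y + t • X.v x)
    rw [add_sub_add_right_eq_sub] at h1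
    linarith
  have hpd : ∀ s, HasDerivAt p (z - X.B y) s := fun s => by
    have := ((hasDerivAt_id s).smul_const (z - X.B y)).const_add (X.B y)
    rw [one_smul] at this
    exact this
  have hpc : Continuous p := by rw [hp]; fun_prop
  set lam := 101 / 100 * ‖z - X.B y‖ with hlam
  have hlam0 : 0 ≤ lam := by positivity
  have hlamt : lam < t := by rw [hlam]; linarith
  obtain ⟨Γ, hΓc, hΓ0, hΓ⟩ := X.h.lift_path X.hLL (y := y) (c := fun s => X.c.ψ.symm (p s))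
    hlam0 (X.c.ψ.continuousOn_symm.comp hpc.continuousOn fun s hs => (X.hρb _ (hpρ s hs)).1)
    (by simp only [hp, zero_smul, add_zero]; exact X.c.ψ.left_inv hyD.2.1.1) (by
      intro s hs s' hs' hss
      refine (X.d_seg (hpρ s hs) (hpρ s' hs')).trans (le_of_eq ?_)
      rw [show p s' - p s = (s' - s) • (z - X.B y) by simp only [hp]; rw [sub_smul]; abel,
        norm_smul, Real.norm_eq_abs, abs_of_nonneg (sub_nonneg.2 hss)]
      ring) (by rw [hyn]; linarith)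
  have hg : Good 𝒜 ℬ e₁ e₂ y := (X.hLL y (by rw [hyn]; linarith)).good
  have hsrc : ∀ s ∈ Icc (0 : ℝ) 1, (Γ s).pt ∈ X.c.ψ.source := fun s hs => by
    rw [(hΓ s hs).1]; exact X.c.ψ.map_target (X.hρb _ (hpρ s hs)).1
  have hψ : ∀ s ∈ Icc (0 : ℝ) 1, X.c.ψ (Γ s).pt = p s := fun s hs => by
    rw [(hΓ s hs).1]; exact X.c.ψ.right_inv (X.hρb _ (hpρ s hs)).1
  have hev : ∀ s ∈ Icc (0 : ℝ) 1, (Γ s).ev ∈ X.c'.bl X.β := by
    intro s hs
    have h1 : ℬ.d (Γ 0).ev (Γ s).ev ≤ lam * (s - 0) := by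
      refine d_le_of_curve (γ := fun s => (Γ s).ev) hs.1 hlam0
        (Gm.continuous_ev.comp_continuousOn (hΓc.mono (Icc_subset_Icc_right hs.2))) ?_
      intro r hr
      have hr1 : r ∈ Ico (0 : ℝ) 1 := ⟨hr.1, hr.2.trans_le hs.2⟩
      have hmem : Icc (0 : ℝ) 1 ∈ 𝓝[Ici r] r := Icc_mem_nhdsGE_of_mem hr1
      refine Gm.speedLe_ev ((hΓc r (Ico_subset_Icc_self hr1)).mono_of_mem_nhdsWithin hmem)
        ⟨X.c, X.hc, hsrc r (Ico_subset_Icc_self hr1), z - X.B y, ?_, ?_⟩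
      · refine (hpd r).hasDerivWithinAt.congr_of_eventuallyEq ?_ (hψ r (Ico_subset_Icc_self hr1))
        filter_upwards [hmem] with r' hr' using hψ r' hr'
      · rw [hψ r (Ico_subset_Icc_self hr1)]
        exact ((X.hρb _ (hpρ r (Ico_subset_Icc_self hr1))).2 _).1
    have h2 : ℬ.d (e₂ X.x₀) (Γ 0).ev ≤ t := by
      have h3 := X.h.ex₂.d_ray (X.dir x) (s := X.R - t) (t := X.R) (by linarith)
      rw [X.smul_dir, X.e₂_of_K hK hx, ← hy', X.norm_dir (hK x hx), d_comm] at h3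
      rw [hΓ0, X.h.φ_ev hg]
      linarith
    have h3 := d_triangle (𝒜 := ℬ) (e₂ X.x₀) (Γ 0).ev (Γ s).ev
    refine hτN _ ?_
    nlinarith [hs.2, ht.2]
  have hj := fun s hs => X.jet_props (hsrc s hs) (by rw [hψ s hs]; exact hpρ s hs) (hev s hs)
  have h1 := Conn.step hc1 (fun s => (X.c.ψ (Γ s).pt, (Γ s).jet X.c X.c')) 0 1 ‖z - X.B y‖
    zero_le_one (norm_nonneg _) ?_ ?_ ?_ ?_
  · have h11 : (1 : ℝ) ∈ Icc (0 : ℝ) 1 := ⟨zero_le_one, le_rfl⟩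
    have hz1 : X.c.ψ (Γ 1).pt = z := by rw [hψ 1 h11]; simp [hp]
    have hj1 := hj 1 h11
    simp only [hz1] at h1 hj1
    refine ⟨_, _, ?_, subset_closure hj1.2.1, h1, hj1.2.2⟩
    nlinarith [ht.2]
  · refine ContinuousOn.prodMk (hpc.continuousOn.congr hψ) fun s hs => ?_
    exact (Gm.continuousAt_jet X.hc X.hc' (hsrc s hs) (hev s hs).1).comp_continuousWithinAt
      (hΓc s hs)
  · rw [hΓ0, X.jet_φ hyD hg, X.h.φ_pt hg]
    rfl
  · intro s hs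
    refine ⟨hU ⟨X.v x, ⟨x, hx, rfl⟩, t, ht, ?_⟩, (hj s hs).1⟩
    simp only
    rw [hψ s hs]
    exact hpin s hs
  · intro s hs
    have hs' := Ioo_subset_Icc_self hs
    have hmem : Icc (0 : ℝ) 1 ∈ 𝓝 s := Icc_mem_nhds hs.1 hs.2
    refine ⟨z - X.B y, le_rfl, Gm.hasDerivAt_jet X.hc X.hc' (hΓc.continuousAt hmem) (hsrc s hs')
      (hev s hs').1 ((hpd s).congr_of_eventuallyEq ?_)⟩
    filter_upwards [hmem] with r hr using hψ r hr

end Ctx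

end Pool.Agent.MP_3fed84_gt

end

-- part MP_3fed84_gt.Key4
section

/-! Points of the critical sphere are good. -/

open Set Metric Filter Topology
open scoped ContDiff RealInnerProductSpace

set_option linter.unusedSectionVars false

namespace Pool.Agent.MP_3fed84_gt

variable {E : Type} [NormedAddCommGroup E] [InnerProductSpace ℝ E] [FiniteDimensional ℝ E]
  {M N : Type} [TopologicalSpace M] [TopologicalSpace N] [T2Space M] [T2Space N]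
  [PreconnectedSpace M] [PreconnectedSpace N]
  {𝒜 : Atlas E M} {ℬ : Atlas E N} {e₁ : E → M} {e₂ : E → N}

theorem bk_eq_sub {x : E} (hx : 0 < ‖x‖) (t : ℝ) : bk x t = x - t • (‖x‖⁻¹ • x) := by
  rw [bk, sub_smul, smul_smul ‖x‖, mul_inv_cancel₀ hx.ne', one_smul]

theorem bk_eq_smul (x : E) (t : ℝ) : bk x t = ((‖x‖ - t) / ‖x‖) • x := by
  rw [bk, smul_smul, div_eq_mul_inv]

theorem norm_dir_sub {x y : E} {R : ℝ} (hR : 0 < R) (hy : ‖y‖ = R) (hx : 0 < ‖x‖) :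
    R * ‖‖x‖⁻¹ • x - R⁻¹ • y‖ ≤ 2 * ‖x - y‖ := by
  have h1 : R • (‖x‖⁻¹ • x - R⁻¹ • y) = (R - ‖x‖) • (‖x‖⁻¹ • x) + (x - y) := by
    rw [smul_sub, sub_smul, smul_smul R R⁻¹, mul_inv_cancel₀ hR.ne', one_smul, smul_smul ‖x‖,
      mul_inv_cancel₀ hx.ne', one_smul]
    abel
  have h2 : ‖‖x‖⁻¹ • x‖ = 1 := by rw [norm_smul, norm_inv, norm_norm, inv_mul_cancel₀ hx.ne']
  have h3 : |R - ‖x‖| ≤ ‖x - y‖ := by
    rw [← hy, norm_sub_rev]; exact abs_norm_sub_norm_le y x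
  have h4 := norm_add_le ((R - ‖x‖) • (‖x‖⁻¹ • x)) (x - y)
  rw [← h1, norm_smul, norm_smul (R - ‖x‖), h2, Real.norm_eq_abs, Real.norm_eq_abs,
    abs_of_pos hR] at h4
  linarith

namespace Ctx

variable (X : Ctx 𝒜 ℬ e₁ e₂)

/-- Admissible ends of rays. -/
def T (r b : ℝ) : Set E := {x | X.h.Tl X.R (X.c.bl r) (X.W r) x ∧ e₁ x ∈ X.c.ψ.source ∧
  ‖X.B x‖ ≤ b ∧ ‖x‖ ≤ X.R + b}

theorem T_near {r b : ℝ} (hb : 0 < b) (hbR : b < X.R) {x : E} (hx : x ∈ X.T r b) :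
    ∃ y ∈ X.Y r, ‖x - y‖ ≤ 2 * b := by
  obtain ⟨⟨t₀, ht₀, hn, hw, hO⟩, -, -, hxn⟩ := hx
  have hns : ∀ t : ℝ, 0 ≤ t → ‖t • x‖ = t * ‖x‖ := fun t ht => by
    rw [norm_smul, Real.norm_eq_abs, abs_of_nonneg ht]
  obtain ⟨t, ht, h1, h2⟩ : ∃ t ∈ Icc t₀ 1, t * ‖x‖ < X.R ∧ (1 - t) * ‖x‖ ≤ 2 * b := by
    rw [hns t₀ ht₀.1] at hn
    by_cases h1 : X.R - b ≤ t₀ * ‖x‖
    · exact ⟨t₀, ⟨le_rfl, ht₀.2⟩, hn, by linarith⟩
    by_cases h2 : ‖x‖ ≤ X.R - b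
    · exact ⟨1, ⟨ht₀.2, le_rfl⟩, by linarith, by linarith⟩
    push Not at h1 h2
    have hx0 : 0 < ‖x‖ := by linarith
    have h3 : (X.R - b) / ‖x‖ * ‖x‖ = X.R - b := div_mul_cancel₀ _ hx0.ne'
    refine ⟨(X.R - b) / ‖x‖, ⟨?_, ?_⟩, by linarith, by linarith⟩
    · rw [le_div_iff₀ hx0]; linarith
    · rw [div_le_one hx0]; linarith
  have ht0 : 0 ≤ t := ht₀.1.trans ht.1
  refine ⟨t • x, ⟨by rwa [hns t ht0], (X.hWs r).ray X.hLL hw fun s hs => ?_⟩, ?_⟩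
  · rw [uIcc_of_le ht.1] at hs
    refine ⟨?_, hO s ⟨hs.1, hs.2.trans ht.2⟩⟩
    rw [hns s (ht₀.1.trans hs.1)]
    nlinarith [hs.2, norm_nonneg x]
  · rw [show x - t • x = (1 - t) • x by rw [sub_smul, one_smul], hns _ (by linarith [ht.2])]
    exact h2

theorem T_back {r b : ℝ} (hbr : b < r) {x : E} (hx : x ∈ X.T r b) {t : ℝ} (ht0 : 0 ≤ t)
    (htx : t < ‖x‖) (hs : ∀ s ∈ Icc 0 t, e₁ (bk x s) ∈ X.c.ψ.source ∧ ‖X.B (bk x s)‖ ≤ b) :
    bk x t ∈ X.T r b := by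
  obtain ⟨⟨t₀, ht₀, hn, hw, hO⟩, -, -, hxn⟩ := hx
  have hx0 : 0 < ‖x‖ := by linarith
  have hbl : ∀ s ∈ Icc 0 t, e₁ (bk x s) ∈ X.c.bl r := fun s hs' =>
    ⟨(hs s hs').1, by rw [mem_preimage, mem_ball_zero_iff]; exact (hs s hs').2.trans_lt hbr⟩
  refine ⟨?_, (hs t ⟨ht0, le_rfl⟩).1, (hs t ⟨ht0, le_rfl⟩).2, ?_⟩
  swap
  · rw [norm_bk hx0 htx.le]; linarith
  set l := (‖x‖ - t) / ‖x‖ with hl
  have hl0 : 0 < l := div_pos (by linarith) hx0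
  have hl1 : l ≤ 1 := by rw [hl, div_le_one hx0]; linarith
  have hlx : l * ‖x‖ = ‖x‖ - t := div_mul_cancel₀ _ hx0.ne'
  rw [bk_eq_smul, ← hl]
  rcases le_total t₀ l with h1 | h1
  · have h2 : (t₀ / l) • l • x = t₀ • x := by rw [smul_smul, div_mul_cancel₀ _ hl0.ne']
    refine ⟨t₀ / l, ⟨div_nonneg ht₀.1 hl0.le, (div_le_one hl0).2 h1⟩, by rwa [h2], by rwa [h2],
      fun u hu => ?_⟩
    rw [smul_smul]
    refine hO _ ⟨(div_le_iff₀ hl0).1 hu.1, ?_⟩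
    nlinarith [hu.2]
  · have h3 : ∀ u ∈ Icc l 1, e₁ (u • x) ∈ X.c.bl r := by
      intro u hu
      have h4 := hbl ((1 - u) * ‖x‖) ⟨mul_nonneg (by linarith [hu.2]) hx0.le, by nlinarith [hu.1]⟩
      rw [bk_eq_smul] at h4
      convert h4 using 3
      field_simp
      ring
    have h5 : ∀ u ∈ Icc l t₀, ‖u • x‖ < X.R := by
      intro u hu
      rw [norm_smul, Real.norm_eq_abs, abs_of_nonneg ht₀.1] at hn
      rw [norm_smul, Real.norm_eq_abs, abs_of_nonneg (hl0.le.trans hu.1)]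
      nlinarith [hu.2]
    refine ⟨1, ⟨zero_le_one, le_rfl⟩, by rw [one_smul]; exact h5 l ⟨le_rfl, h1⟩, ?_, fun u hu => ?_⟩
    · rw [one_smul]
      refine (X.hWs r).ray X.hLL hw fun u hu => ?_
      rw [uIcc_of_ge h1] at hu
      exact ⟨h5 u hu, h3 u ⟨hu.1, hu.2.trans ht₀.2⟩⟩
    · rw [le_antisymm hu.2 hu.1, one_smul]
      exact h3 l ⟨le_rfl, hl1⟩

theorem x₀_mem_T {r b : ℝ} (hr : 0 < r) (hb : 0 ≤ b) : X.x₀ ∈ X.T r b := by
  have h1 : ∀ᶠ t in 𝓝 (1 : ℝ), e₁ (t • X.x₀) ∈ X.c.bl r := by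
    have hc : ContinuousAt (fun t : ℝ => e₁ (t • X.x₀)) 1 :=
      (X.h.ex₁.cont.comp (by fun_prop)).continuousAt
    refine hc.eventually ((X.c.isOpen_bl r).mem_nhds ?_)
    simpa using X.hn.mem_bl hr
  obtain ⟨η, hη, hb'⟩ := Metric.eventually_nhds_iff_ball.1 h1
  obtain ⟨t, ht1, ht2⟩ := ((X.tail_mem hr).and
    (Ioo_mem_nhdsLT (show max 0 (1 - η) < 1 from max_lt one_pos (by linarith)))).exists
  rw [max_lt_iff] at ht2
  refine ⟨⟨t, ⟨ht2.1.1.le, ht2.2.le⟩, ht1.1, ht1.2, fun s hs => hb' s ?_⟩, X.hn.1, ?_, ?_⟩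
  · rw [mem_ball, Real.dist_eq, abs_lt]
    constructor <;> linarith [hs.1, hs.2, ht2.1.2]
  · rw [X.B_of_K X.x₀_mem_K, norm_zero]; exact hb
  · rw [X.hx₀]; linarith

/-- The star-shaped region with its family of chains. -/
theorem exists_region (hK : ∀ x ∈ X.K, ‖x‖ = X.R) {τ₁ C₁ τ : ℝ} (hu : X.Unif τ₁ C₁)
    (hC₁ : 1 ≤ C₁) (hτ0 : 0 < τ) (hτ : 2 * τ ≤ τ₁) (hτR : 2 * τ ≤ X.R) (hτρ : 2 * τ ≤ X.ρ)
    (hτN : ∀ n, ℬ.d (e₂ X.x₀) n ≤ 2 * τ → n ∈ X.c'.bl X.β) :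
    ∃ U : Set E, U ⊆ closedBall 0 (2 * τ) ∧ U ∈ 𝓝 (0 : E) ∧
      (∀ z ∈ U, ∀ s ∈ Icc (0 : ℝ) 1, s • z ∈ U) ∧ cones (X.v '' X.K) τ ⊆ U ∧
      ∀ z ∈ U, X.Fam U ((C₁ + 1) * (2 * τ)) z := by
  set η := τ / (3000 * C₁) with hη
  have hη0 : 0 < η := by positivity
  have hηC : C₁ * η = τ / 3000 := by rw [hη]; field_simp
  have hητ : η ≤ τ / 3000 := by nlinarith
  obtain ⟨r, hr, hnear⟩ := X.near_K hη0
  obtain ⟨bM, hbM, hmin⟩ := X.h.minimise X.hR X.hLL (X.c.isOpen_bl r) (X.hn.mem_bl hr)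
  set b := min (min (bM / 2) (r / 2)) η with hb
  have hb0 : 0 < b := lt_min (lt_min (by linarith) (by linarith)) hη0
  have hb1 : b ≤ bM / 2 := (min_le_left _ _).trans (min_le_left _ _)
  have hb2 : b ≤ r / 2 := (min_le_left _ _).trans (min_le_right _ _)
  have hb3 : b ≤ η := min_le_right _ _
  have hclose : ∀ x ∈ X.T r b, ∃ x₁ ∈ X.K, ‖x - x₁‖ ≤ 3 * η := by
    intro x hx
    obtain ⟨y, hy, h1⟩ := X.T_near hb0 (by linarith) hx
    obtain ⟨x₁, hx₁, h2⟩ := hnear y hy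
    refine ⟨x₁, hx₁, ?_⟩
    have := norm_add_le (x - y) (y - x₁)
    rw [sub_add_sub_cancel] at this
    linarith
  have hnorm : ∀ x x₁, x₁ ∈ X.K → ‖x - x₁‖ ≤ 3 * η → X.R - τ / 100 ≤ ‖x‖ := by
    intro x x₁ hx₁ h1
    have := norm_sub_le x (x - x₁)
    rw [sub_sub_cancel, hK x₁ hx₁] at this
    linarith
  have hbk : ∀ x x₁, x₁ ∈ X.K → ‖x - x₁‖ ≤ 3 * η → ∀ t ∈ Icc 0 τ, bk x t ∈ closedBall x₁ τ₁ := by
    intro x x₁ hx₁ h1 t ht
    have hx0 : 0 < ‖x‖ := by linarith [hnorm x x₁ hx₁ h1]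
    rw [mem_closedBall, dist_eq_norm, bk_eq_sub hx0, sub_right_comm]
    refine (norm_sub_le _ _).trans ?_
    rw [norm_smul, norm_smul, norm_inv, norm_norm, inv_mul_cancel₀ hx0.ne', Real.norm_eq_abs,
      abs_of_nonneg ht.1]
    linarith [ht.2]
  have hdir : ∀ x x₁, x₁ ∈ X.K → ‖x - x₁‖ ≤ 3 * η → τ * ‖‖x‖⁻¹ • x - X.dir x₁‖ ≤ 3 * η := by
    intro x x₁ hx₁ h1
    have hx0 : 0 < ‖x‖ := by linarith [hnorm x x₁ hx₁ h1]
    have h2 := norm_dir_sub X.hR (hK x₁ hx₁) hx0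
    have h3 : 2 * τ * ‖‖x‖⁻¹ • x - X.dir x₁‖ ≤ X.R * ‖‖x‖⁻¹ • x - X.dir x₁‖ :=
      mul_le_mul_of_nonneg_right hτR (norm_nonneg _)
    rw [dir] at h3 ⊢
    linarith
  have hbρ : ∀ z : E, ‖z‖ ≤ b → z ∈ closedBall (0 : E) X.ρ := fun z hz => by
    rw [mem_closedBall_zero_iff]; linarith
  have hm₀ : X.c.ψ.symm 0 = e₁ X.x₀ := by rw [← X.hn.2.1, X.c.ψ.left_inv X.hn.1]
  have hd0 : ∀ z : E, ‖z‖ ≤ b → 𝒜.d (e₁ X.x₀) (X.c.ψ.symm z) ≤ bM := by
    intro z hz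
    have := X.d_seg (mem_closedBall_self X.hρ.le) (hbρ z hz)
    rw [hm₀, sub_zero] at this
    linarith
  obtain ⟨U, hU1, hU2, hU3, hU4, hU5⟩ := star (T := X.T r b) (B := X.B) (V := X.v '' X.K)
    (R := X.R) (b := b) (τ := τ) hb0 (by linarith) hτR
    (by rintro _ ⟨x, hx, rfl⟩; exact X.norm_v hK hx)
    (fun x hx => by obtain ⟨x₁, hx₁, h1⟩ := hclose x hx; exact hnorm x x₁ hx₁ h1)
    (fun x hx t ht hs => by
      obtain ⟨x₁, hx₁, h1⟩ := hclose x hx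
      refine X.T_back (by linarith) hx ht.1 (by linarith [hnorm x x₁ hx₁ h1, ht.2]) fun s hs' =>
        ⟨(hu x₁ hx₁ _ (hbk x x₁ hx₁ h1 s ⟨hs'.1, hs'.2.trans ht.2⟩)).1.2.1.1, hs s hs'⟩)
    (fun x hx z hz hle => by
      have h1 : X.c.ψ.symm (X.B x) = e₁ x := X.c.ψ.left_inv hx.2.1
      have h2 := X.d_seg (hbρ _ hx.2.2.1) (hbρ z hz)
      rw [h1, norm_sub_rev] at h2
      have hzt := (X.hρb z (hbρ z hz)).1
      obtain ⟨x', h3, h4, h5⟩ := hmin (X.W r) (X.hWs r) x (X.c.ψ.symm z) hx.1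
        (by rw [← h1]; exact hd0 _ hx.2.2.1) (hd0 z hz) (by linarith)
      have h6 : X.B x' = z := by
        simp only [B, Function.comp_apply]; rw [h4, X.c.ψ.right_inv hzt]
      exact ⟨x', ⟨h3, by rw [h4]; exact X.c.ψ.map_target hzt, by rwa [h6], by linarith⟩, h6,
        by linarith⟩)
    (fun x hx => by
      obtain ⟨x₁, hx₁, h1⟩ := hclose x hx
      refine ⟨X.v x₁, ⟨x₁, hx₁, rfl⟩, fun t ht => ?_⟩
      have hx0 : 0 < ‖x‖ := by linarith [hnorm x x₁ hx₁ h1]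
      have h0 := hbk x x₁ hx₁ h1 0 ⟨le_rfl, hτ0.le⟩
      rw [bk_eq_sub hx0, zero_smul, sub_zero] at h0
      have h2 := hu.approx hx₁ h0 (hbk x x₁ hx₁ h1 t ht)
      have h3 : bk x t - x = -(t • (‖x‖⁻¹ • x)) := by rw [bk_eq_sub hx0]; abel
      rw [h3, norm_neg, norm_smul, norm_smul, norm_inv, norm_norm, inv_mul_cancel₀ hx0.ne',
        Real.norm_eq_abs, abs_of_nonneg ht.1, mul_one, map_neg, map_smul] at h2
      have h4 : X.B (bk x t) - (X.B x - t • X.v x₁)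
          = (X.B (bk x t) - X.B x - -(t • fderiv ℝ X.B x₁ (‖x‖⁻¹ • x)))
            - t • fderiv ℝ X.B x₁ (‖x‖⁻¹ • x - X.dir x₁) := by
        rw [map_sub, v, smul_sub]; abel
      have h5 : ‖fderiv ℝ X.B x₁ (‖x‖⁻¹ • x - X.dir x₁)‖ ≤ C₁ * ‖‖x‖⁻¹ • x - X.dir x₁‖ :=
        ((fderiv ℝ X.B x₁).le_opNorm _).trans (mul_le_mul_of_nonneg_right
          (hu x₁ hx₁ x₁ (mem_closedBall_self (by linarith))).2.1 (norm_nonneg _))
      have h6 : C₁ * ‖‖x‖⁻¹ • x - X.dir x₁‖ ≤ 1 / 1000 := by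
        have h7 := mul_le_mul_of_nonneg_left (hdir x x₁ hx₁ h1) (show 0 ≤ C₁ by linarith)
        have h8 : τ * (C₁ * ‖‖x‖⁻¹ • x - X.dir x₁‖) ≤ τ * (1 / 1000) := by nlinarith
        exact le_of_mul_le_mul_left h8 hτ0
      rw [h4]
      refine (norm_sub_le _ _).trans ?_
      rw [norm_smul, Real.norm_eq_abs, abs_of_nonneg ht.1]
      nlinarith [ht.1, mul_le_mul_of_nonneg_left (h5.trans h6) ht.1])
    ⟨X.x₀, X.x₀_mem_T hr hb0.le, X.B_of_K X.x₀_mem_K, X.hx₀.le⟩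
  refine ⟨U, hU1, hU2, hU3, hU4, fun z hz => ?_⟩
  rcases hU5 z hz with h1 | ⟨x, hx, rfl, hxU⟩
  · exact X.fam_cone hK hu hC₁ hτ hτR hτρ hτN hU4 h1
  obtain ⟨x₁, hx₁, h1⟩ := hclose x hx
  have hxn := hnorm x x₁ hx₁ h1
  have hx0 : 0 < ‖x‖ := by linarith
  set θ : E := ‖x‖⁻¹ • x with hθ
  have hθ1 : ‖θ‖ = 1 := by rw [hθ, norm_smul, norm_inv, norm_norm, inv_mul_cancel₀ hx0.ne']
  have hc1 := X.conn_across hK hu hC₁ hτ hU4 hx₁ (t := τ / 2) ⟨by linarith, by linarith⟩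
    (y := bk x (τ / 2)) (by rw [norm_bk hx0 (by linarith)]; linarith [hx.2.2.2]) (by
      have h2 : bk x (τ / 2) - (x₁ - (τ / 2) • X.dir x₁)
          = (x - x₁) - (τ / 2) • (θ - X.dir x₁) := by
        rw [bk_eq_sub hx0, smul_sub]; abel
      have h3 := norm_sub_le (x - x₁) ((τ / 2) • (θ - X.dir x₁))
      rw [← h2, norm_smul, Real.norm_eq_abs, abs_of_pos (by linarith : 0 < τ / 2)] at h3
      have h4 := hdir x x₁ hx₁ h1
      have h5 : ‖bk x (τ / 2) - (x₁ - (τ / 2) • X.dir x₁)‖ ≤ 6 * η := by linarith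
      nlinarith)
  have hsθ : ∀ s : ℝ, s • θ = bk x (‖x‖ - s) := fun s => by rw [bk, sub_sub_cancel]
  have hin : ∀ s ∈ Icc (‖x‖ - τ / 2) ‖x‖, ‖x‖ - s ∈ Icc 0 τ := fun s hs =>
    ⟨by linarith [hs.2], by linarith [hs.1]⟩
  have hD : ∀ s ∈ Icc (‖x‖ - τ / 2) ‖x‖, s • θ ∈ X.D ∧ ‖fderiv ℝ X.B (s • θ)‖ ≤ C₁ := by
    intro s hs
    rw [hsθ]
    have := hu x₁ hx₁ _ (hbk x x₁ hx₁ h1 _ (hin s hs))
    exact ⟨this.1, this.2.1⟩
  have hxθ : ‖x‖ • θ = x := by rw [hθ, smul_smul, mul_inv_cancel₀ hx0.ne', one_smul]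
  have hc2 := Conn.step hc1 (fun s : ℝ => (X.B (s • θ), X.q (s • θ))) (‖x‖ - τ / 2) ‖x‖ C₁
    (by linarith) (by linarith)
    (fun s hs => (X.hasDerivAt_ray (hD s hs).1).continuousAt.continuousWithinAt)
    (by simp only [hsθ, sub_sub_cancel])
    (fun s hs => ⟨by simp only [hsθ]; exact hxU _ (hin s hs), X.q_mem (hD s hs).1⟩)
    (fun s hs => ⟨_, ((fderiv ℝ X.B _).le_opNorm _).trans (by
      rw [hθ1, mul_one]; exact (hD s (Ioo_subset_Icc_self hs)).2),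
      X.hasDerivAt_ray (hD s (Ioo_subset_Icc_self hs)).1⟩)
  have hxD : x ∈ X.D := by
    have := (hD ‖x‖ ⟨by linarith, le_rfl⟩).1
    rwa [hxθ] at this
  simp only [hxθ] at hc2
  exact ⟨X.q x, _, by nlinarith, X.q_leaf hxD, hc2, (X.hA x hxD.1 hxD.2.1.1 hxD.2.2.1).1⟩

theorem good : Good 𝒜 ℬ e₁ e₂ X.x₀ := by
  by_cases hin : ∃ x ∈ X.K, ‖x‖ < X.R
  · obtain ⟨x, hx, hxR⟩ := hin
    exact X.good_of_inner hx hxR
  have hK : ∀ x ∈ X.K, ‖x‖ = X.R := fun x hx =>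
    le_antisymm (X.norm_le_of_K hx) (not_lt.1 fun h => hin ⟨x, hx, h⟩)
  obtain ⟨τ₁, hτ₁, C₁, hC₁, hu⟩ := X.exists_unif hK
  obtain ⟨τ₀, hτ₀, hfill⟩ := fill X.isOpen_O X.w_smooth X.isCompact_Q X.convex_Q X.hρ X.Z_subset
    (X.Q_mem_nhds X.x₀_mem_D) (C₁ + 1)
  obtain ⟨rN, hrN, hN⟩ := exists_d_ball (𝒜 := ℬ)
    ((X.c'.isOpen_bl X.β).mem_nhds (X.hn'.mem_bl X.hβ))
  set τ := min (min (min τ₁ τ₀) (min X.R X.ρ)) rN / 2 with hτ
  have h2τ : 2 * τ = min (min (min τ₁ τ₀) (min X.R X.ρ)) rN := by rw [hτ]; ring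
  have hτ0 : 0 < τ := half_pos (lt_min (lt_min (lt_min hτ₁ hτ₀) (lt_min X.hR X.hρ)) hrN)
  have h1 : 2 * τ ≤ τ₁ := h2τ ▸ (min_le_left _ _).trans ((min_le_left _ _).trans (min_le_left _ _))
  have h2 : 2 * τ ≤ τ₀ := h2τ ▸ (min_le_left _ _).trans ((min_le_left _ _).trans (min_le_right _ _))
  have h3 : 2 * τ ≤ X.R :=
    h2τ ▸ (min_le_left _ _).trans ((min_le_right _ _).trans (min_le_left _ _))
  have h4 : 2 * τ ≤ X.ρ :=
    h2τ ▸ (min_le_left _ _).trans ((min_le_right _ _).trans (min_le_right _ _))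
  have h5 : 2 * τ ≤ rN := h2τ ▸ min_le_right _ _
  obtain ⟨U, hU1, hU2, hU3, hU4, hU5⟩ := X.exists_region hK hu hC₁ hτ0 h1 h3 h4
    fun n hn => hN n (hn.trans h5)
  obtain ⟨σ, hσ0, hσ, hσq⟩ := hfill (2 * τ) (by linarith) h2 U hU1 hU2 hU3 fun z hz => by
    obtain ⟨q, l, a1, a2, a3, -⟩ := hU5 z hz
    exact ⟨q, l, a1, a2, a3⟩
  set f : E → E := fun z => (σ z).1 with hf
  have hfd : ∀ᶠ z in 𝓝 (0 : E), fderiv ℝ f z = (σ z).2 := by
    filter_upwards [hσ] with z hz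
    rw [hz.2.fst.fderiv]
    ext a
    exact congrArg Prod.fst (rol_apply (Γ := X.c.Γ) (Γ' := X.c'.Γ) z (σ z).1 (σ z).2 a)
  have hf1 : ∀ᶠ z in 𝓝 (X.c.ψ (e₁ X.x₀)), ContDiffAt ℝ ∞ f z ∧ IsoAt X.c.G X.c'.G f z := by
    rw [X.hn.2.1]
    filter_upwards [hσ, hfd, hU2] with z hz1 hz2 hz3
    refine ⟨hz1.1.fst, fun a b => ?_⟩
    obtain ⟨q, l, a1, -, a3, a4⟩ := hU5 z hz3
    rw [hz2, hf]
    simp only
    rw [← hσq z q l a1 a3]
    exact a4 a b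
  obtain ⟨hF, hFe⟩ := LI.of_coord X.hc X.hc' X.hn.1 (f := f) (by
    rw [X.hn.2.1, hf]
    simp only
    rw [hσ0]
    exact X.c'.ψ.map_source X.hn'.1) hf1
  set F := X.c'.ψ.symm ∘ f ∘ X.c.ψ with hFdef
  rw [X.hn.2.1] at hFe
  refine X.good_of_tail hF ?_
  have hB : Tendsto (fun t : ℝ => X.B (t • X.x₀)) (𝓝[<] 1) (𝓝 0) := by
    have := (X.B_smooth X.x₀_mem_D).continuousAt.tendsto.comp X.tendsto_tail
    rwa [X.B_of_K X.x₀_mem_K] at this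
  have hlt : 1 - τ / X.R < 1 := by have := div_pos hτ0 X.hR; linarith
  filter_upwards [X.tail_mem one_pos, hB.eventually hfd, hB.eventually hFe.eventuallyEq_nhds,
    (X.h.ex₁.cont.continuousAt.tendsto.comp X.tendsto_tail).eventually hF.eventually,
    X.tendsto_tail.eventually (X.isOpen_D.mem_nhds X.x₀_mem_D), Ioo_mem_nhdsLT hlt]
    with t a1 a2 a3 a4 a5 a6
  have ht : (1 - t) * X.R ∈ Icc 0 τ := by
    refine ⟨mul_nonneg (by linarith [a6.2]) X.hR.le, ?_⟩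
    rw [← le_div_iff₀ X.hR]
    linarith [a6.1]
  have hc := X.conn_across hK hu hC₁ h1 hU4 X.x₀_mem_K ht (y := t • X.x₀) a1.1.le (by
    rw [mul_smul, X.smul_dir, sub_smul, one_smul, sub_sub_cancel, sub_self, norm_zero, mul_zero]
    linarith [ht.1])
  have hq := hσq _ _ _ (by nlinarith [ht.2]) hc
  obtain ⟨F', hF', ha'⟩ := (X.hLL _ a1.1).good
  have hval : F (e₁ (t • X.x₀)) = e₂ (t • X.x₀) := by
    have h6 : f (X.c.ψ (e₁ (t • X.x₀))) = X.c'.ψ (e₂ (t • X.x₀)) := (congrArg Prod.fst hq).symm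
    simp only [hFdef, Function.comp_apply]
    rw [h6, X.c'.ψ.left_inv a5.2.2.1]
  have heq : F =ᶠ[𝓝 (e₁ (t • X.x₀))] F' := by
    refine LI.eq_of_jet a4 hF' X.hc X.hc' a5.2.1.1 (by rw [hval]; exact a5.2.2.1)
      (by rw [hval, ha'.eq]) ?_
    have h7 := (X.hA _ a5.1 a5.2.1.1 a5.2.2.1).2.2 F' hF' ha'
    rw [← h7]
    exact a3.fderiv_eq.trans (a2.trans (congrArg Prod.snd hq).symm)
  exact (heq.comp_tendsto X.h.ex₁.cont.continuousAt.tendsto).trans ha'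

end Ctx

/-- The local Hopf-Rinow property holds everywhere. -/
theorem Pair.ll_all (h : Pair 𝒜 ℬ e₁ e₂) (y : E) : LL 𝒜 ℬ e₁ e₂ y := by
  by_contra hy
  set S : Set ℝ := {r | ∃ y : E, ¬ LL 𝒜 ℬ e₁ e₂ y ∧ ‖y‖ = r} with hS
  have hne : S.Nonempty := ⟨_, y, hy, rfl⟩
  have hbd : BddBelow S := ⟨0, by rintro _ ⟨y, -, rfl⟩; exact norm_nonneg y⟩
  set R := sInf S with hR
  have hLL : ∀ y : E, ‖y‖ < R → LL 𝒜 ℬ e₁ e₂ y := fun y hy => by
    by_contra h1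
    exact absurd (csInf_le hbd ⟨y, h1, rfl⟩) (not_le.2 hy)
  have hR0 : 0 ≤ R := le_csInf hne (by rintro _ ⟨y, -, rfl⟩; exact norm_nonneg y)
  have hev : ∀ x ∈ closedBall (0 : E) R, x ∈ interior {y | LL 𝒜 ℬ e₁ e₂ y} := by
    intro x hx
    rw [mem_interior_iff_mem_nhds]
    rw [mem_closedBall_zero_iff] at hx
    rcases hx.eq_or_lt with h1 | h1
    · rcases hR0.eq_or_lt with h2 | h2
      · have : x = 0 := norm_eq_zero.1 (h1.trans h2.symm)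
        rw [this]
        exact h.ll_near_zero
      · obtain ⟨X, hX⟩ := h.exists_ctx h2 hLL h1
        exact h.ll_near h2 hLL h1 (hX ▸ X.good)
    · filter_upwards [continuous_norm.continuousAt.eventually (gt_mem_nhds h1)] with z hz
      exact hLL z hz
  obtain ⟨δ, hδ, hsub⟩ := (isCompact_closedBall (0 : E) R).exists_thickening_subset_open
    isOpen_interior hev
  rw [thickening_closedBall hδ hR0] at hsub
  obtain ⟨_, ⟨z, hz, rfl⟩, hlt⟩ := exists_lt_of_csInf_lt hne (show R < δ + R by linarith)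
  exact hz (interior_subset (s := {y | LL 𝒜 ℬ e₁ e₂ y}) (hsub (mem_ball_zero_iff.2 hlt)))

end Pool.Agent.MP_3fed84_gt

end

-- part MP_3fed84_gt.Global
section

/-! From the local Hopf-Rinow property everywhere to a global isometry. -/

open Set Metric Filter Topology
open scoped ContDiff RealInnerProductSpace

namespace Pool.Agent.MP_3fed84_gt

variable {E : Type} [NormedAddCommGroup E] [InnerProductSpace ℝ E] [FiniteDimensional ℝ E]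
  {M N : Type} [TopologicalSpace M] [TopologicalSpace N] [T2Space M] [T2Space N]
  {𝒜 : Atlas E M} {ℬ : Atlas E N} {e₁ : E → M} {e₂ : E → N}

/-- Uniform sheets. -/
theorem Pair.sheets [PreconnectedSpace M] (h : Pair 𝒜 ℬ e₁ e₂) (hLL : ∀ y, LL 𝒜 ℬ e₁ e₂ y)
    (m : M) : ∃ O ∈ 𝓝 m, ∀ y, e₁ y ∈ O → ∃ s : M → Gm 𝒜 ℬ, ContinuousOn s O ∧
      s (e₁ y) = h.φ y ∧ ∀ m' ∈ O, (s m').pt = m' ∧ s m' ∈ range h.φ := by
  obtain ⟨c, hc, hn⟩ := 𝒜.norm m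
  obtain ⟨ρ, hρ, hball⟩ := hn.exists_ball (lam := 2) one_lt_two
  refine ⟨c.ψ.source ∩ c.ψ ⁻¹' ball 0 ρ, ?_, ?_⟩
  · refine (c.ψ.continuousOn.isOpen_inter_preimage c.ψ.open_source isOpen_ball).mem_nhds
      ⟨hn.1, ?_⟩
    rw [mem_preimage, hn.2.1]
    exact mem_ball_self hρ
  intro y hy
  have hsub : ball (0 : E) ρ ⊆ c.ψ.target := fun z hz => (hball z (ball_subset_closedBall hz)).1
  obtain ⟨s, hsc, hsw, hs⟩ := exists_section_ball (p := (Gm.pt : Gm 𝒜 ℬ → M))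
    Gm.isLocalHomeomorph Gm.isSeparatedMap (f := c.ψ.symm) (r := ρ)
    (c.ψ.continuousOn_symm.mono hsub) (w := c.ψ (e₁ y)) hy.2 (y₀ := h.φ y)
    (Q := fun ξ => ξ ∈ range h.φ) (by
      intro z hz
      set w := c.ψ (e₁ y) with hw
      have hin : ∀ t ∈ Icc (0 : ℝ) 1, w + t • (z - w) ∈ ball (0 : E) ρ := fun t ht =>
        (convex_ball (0 : E) ρ).add_smul_sub_mem hy.2 hz ht
      obtain ⟨Γ, hΓc, hΓ0, hΓ⟩ := h.lift_path (R := ‖y‖ + 2 * ‖z - w‖ + 1) (fun y _ => hLL y)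
        (y := y) (c := fun t => c.ψ.symm (w + t • (z - w))) (lam := 2 * ‖z - w‖) (by positivity)
        (c.ψ.continuousOn_symm.comp (by fun_prop) fun t ht => hsub (hin t ht))
        (by simp [hw, c.ψ.left_inv hy.1]) (by
          intro t ht t' ht' htt
          refine d_le_of_segment hc (by have := sub_nonneg.2 htt; positivity) ?_
          intro x hx
          have hx' := (convex_ball (0 : E) ρ).segment_subset (hin t ht) (hin t' ht') hx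
          refine ⟨hsub hx', ((hball x (ball_subset_closedBall hx')).2 _).1.trans (le_of_eq ?_)⟩
          rw [show w + t' • (z - w) - (w + t • (z - w)) = (t' - t) • (z - w) by
            rw [sub_smul]; abel, norm_smul, Real.norm_eq_abs, abs_of_nonneg (sub_nonneg.2 htt)]
          ring) (by linarith)
      obtain ⟨-, y', -, hy'⟩ := hΓ 1 ⟨zero_le_one, le_rfl⟩
      exact ⟨Γ, hΓc, hΓ0, ⟨y', hy'⟩, fun t ht => (hΓ t ht).1⟩)
  refine ⟨s ∘ c.ψ, hsc.comp (c.ψ.continuousOn.mono inter_subset_left) fun m' hm' => hm'.2,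
    hsw, fun m' hm' => ⟨?_, (hs _ hm'.2).2⟩⟩
  rw [Function.comp_apply, (hs _ hm'.2).1, c.ψ.left_inv hm'.1]

omit [T2Space M] in
theorem Pair.range_mem_nhds (h : Pair 𝒜 ℬ e₁ e₂) {y : E} (hLL : LL 𝒜 ℬ e₁ e₂ y) :
    ∀ᶠ ξ in 𝓝 (h.φ y), ξ ∈ range h.φ := by
  obtain ⟨F, hF, ha, hev⟩ := hLL
  rw [Gm.eventually_iff (h.φ_rep hF ha), h.φ_pt ⟨F, hF, ha⟩]
  filter_upwards [hev, hF.eventually] with m ⟨y', _, he, ha'⟩ hli ξ h1 h2
  have hli' : LI 𝒜 ℬ F (e₁ y') := by rw [he]; exact hli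
  exact ⟨y', Gm.ext' (h.φ_rep hli' ha') h2 (by rw [h.φ_pt ⟨F, hli', ha'⟩, he, h1])⟩

theorem Pair.lift_all [PreconnectedSpace M] (h : Pair 𝒜 ℬ e₁ e₂) (hLL : ∀ y, LL 𝒜 ℬ e₁ e₂ y)
    {c : ℝ → M} (hc : ContinuousOn c (Icc 0 1)) (h0 : c 0 = e₁ 0) :
    ∃ Γ : ℝ → Gm 𝒜 ℬ, ContinuousOn Γ (Icc 0 1) ∧ Γ 0 = h.φ 0 ∧
      ∀ t ∈ Icc (0 : ℝ) 1, (Γ t).pt = c t ∧ Γ t ∈ range h.φ := by
  refine exists_lift (Q := fun _ ξ => ξ ∈ range h.φ) Gm.isLocalHomeomorph Gm.isSeparatedMap hc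
    (by rw [h.φ_pt h.good_zero, h0]) ⟨0, rfl⟩ ?_ ?_
  · intro t ht Γ hΓc hΓ
    obtain ⟨O, hO, hs⟩ := h.sheets hLL (c t)
    have hev : ∀ᶠ s in 𝓝[<] t, s ∈ Ico 0 t := Ico_mem_nhdsLT ht.1
    have h5 : Tendsto c (𝓝[<] t) (𝓝 (c t)) := by
      refine (hc t ⟨ht.1.le, ht.2⟩).tendsto.mono_left ?_
      rw [nhdsWithin, nhdsWithin, le_inf_iff]
      refine ⟨inf_le_left, ?_⟩
      rw [le_principal_iff]
      filter_upwards [hev] with s hs using ⟨hs.1, hs.2.le.trans ht.2⟩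
    obtain ⟨a, ha, hao⟩ := (mem_nhdsLT_iff_exists_Ico_subset).1 (hev.and (h5.eventually hO))
    have ha' : a ∈ Ico a t := ⟨le_rfl, ha⟩
    obtain ⟨y, hy⟩ := (hΓ a (hao ha').1).2
    have hye : e₁ y = c a := by rw [← h.φ_pt (hLL y).good, hy, (hΓ a (hao ha').1).1]
    obtain ⟨s, hsc, hsy, hs'⟩ := hs y (by rw [hye]; exact (hao ha').2)
    have hsub : Ico a t ⊆ Icc 0 1 := fun r hr => ⟨(hao hr).1.1, hr.2.le.trans ht.2⟩
    have heq : EqOn Γ (s ∘ c) (Ico a t) := by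
      refine Gm.isSeparatedMap.eqOn_of_comp_eqOn Gm.isLocalHomeomorph.isLocallyInjective
        isPreconnected_Ico (hΓc.mono fun r hr => (hao hr).1)
        (hsc.comp (hc.mono hsub) fun r hr => (hao hr).2) ?_ ha' ?_
      · intro r hr
        simp only [Function.comp_apply]
        rw [(hΓ r (hao hr).1).1, (hs' _ (hao hr).2).1]
      · rw [Function.comp_apply, ← hye, hsy, hy]
    have hct : c t ∈ O := mem_of_mem_nhds hO
    refine ⟨s (c t), (hs' _ hct).1, (hs' _ hct).2, Tendsto.mapClusterPt ?_⟩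
    refine ((hsc.continuousAt hO).tendsto.comp h5).congr' ?_
    filter_upwards [Ico_mem_nhdsLT ha] with r hr using (heq hr).symm
  · rintro t _ ξ _ ⟨y, rfl⟩
    filter_upwards [(h.range_mem_nhds (hLL y)).prod_inr (𝓝[>] t)] with z hz _ using hz

theorem Pair.global [SimplyConnectedSpace M] [LocallyPathConnectedSpace M] (h : Pair 𝒜 ℬ e₁ e₂)
    (hLL : ∀ y, LL 𝒜 ℬ e₁ e₂ y) :
    Function.Surjective e₁ ∧ ∃ F : M → N, (∀ m, LI 𝒜 ℬ F m) ∧ ∀ x, F (e₁ x) = e₂ x := by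
  have hg : ∀ y, Good 𝒜 ℬ e₁ e₂ y := fun y => (hLL y).good
  constructor
  · intro m
    let γ : Path (e₁ 0) m := PathConnectedSpace.somePath _ _
    obtain ⟨Γ, -, -, hΓ⟩ := h.lift_all hLL (c := γ.extend) γ.continuous_extend.continuousOn
      γ.extend_zero
    obtain ⟨h1, y, hy⟩ := hΓ 1 ⟨zero_le_one, le_rfl⟩
    exact ⟨y, by rw [← h.φ_pt (hg y), hy, h1, γ.extend_one]⟩
  obtain ⟨s, hsc, hs0, hs⟩ := exists_section (p := (Gm.pt : Gm 𝒜 ℬ → M)) Gm.isLocalHomeomorph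
    Gm.isSeparatedMap (h.φ 0) (by
      intro c hc h0
      obtain ⟨Γ, h1, h2, h3⟩ := h.lift_all hLL hc (by rw [h0, h.φ_pt (hg 0)])
      exact ⟨Γ, h1, h2, fun t ht => (h3 t ht).1⟩)
  refine ⟨fun m => (s m).ev, ?_, ?_⟩
  · intro m
    have h1 := (s m).rep_fn
    have h2 := h1.li
    rw [hs] at h2
    refine h2.congr ?_
    filter_upwards [hsc.continuousAt.eventually h1.eventually] with m' hm'
    rw [hm'.ev, hs]
  · intro x
    have hcφ : Continuous h.φ := continuous_iff_continuousAt.2 fun y => h.continuousAt_φ (hg y)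
    have h1 : s ∘ e₁ = h.φ := by
      refine Gm.isSeparatedMap.eq_of_comp_eq Gm.isLocalHomeomorph.isLocallyInjective
        (hsc.comp h.ex₁.cont) hcφ ?_ 0 ?_
      · funext y
        simp only [Function.comp_apply]
        rw [hs, h.φ_pt (hg y)]
      · rw [h.φ_pt (hg 0)] at hs0
        exact hs0
    have h2 := congrFun h1 x
    simp only [Function.comp_apply] at h2
    simp only [h2, h.φ_ev (hg x)]


end Pool.Agent.MP_3fed84_gt

end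

-- part MP_3fed84_gt.Final
section

/-! The theorem. -/

open Set Metric Filter Topology
open scoped Manifold ContDiff RealInnerProductSpace

namespace Pool.Agent.MP_3fed84_gt

theorem ambrose {E : Type} [NormedAddCommGroup E] [InnerProductSpace ℝ E] [FiniteDimensional ℝ E]
    {M : Type} [TopologicalSpace M] [ChartedSpace E M] [IsManifold 𝓘(ℝ, E) ∞ M]
    [T2Space M] [SimplyConnectedSpace M]
    {N : Type} [TopologicalSpace N] [ChartedSpace E N] [IsManifold 𝓘(ℝ, E) ∞ N]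
    [T2Space N] [SimplyConnectedSpace N]
    (g : RiemMetric E M) (k : RiemMetric E N) (p : M) (q : N)
    (expM : E → M) (expN : E → N) (hM : IsExp g p expM) (hN : IsExp k q expN)
    (L : E ≃L[ℝ] E) (hL : ∀ a b : E, ip k q (L a) (L b) = ip g p a b)
    (hh : ∀ x a b : E, pullback k expN (L x) (L a) (L b) = pullback g expM x a b) :
    ∃ F : Diffeo E M N, F p = q ∧ (∀ x : E, F (expM x) = expN (L x)) ∧
      ∀ (m : M) (a b : E), pullback k F m a b = ip g m a b := by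
  obtain ⟨𝒜, h𝒜⟩ := exists_models g
  obtain ⟨ℬ, hℬ⟩ := exists_models k
  obtain ⟨J, hJ⟩ := exists_normalize (E := E) (g.inner p) (g.symm p) (g.pos p)
  have h₁ := ex_of_isExp h𝒜 hM J hJ
  have h₂ := ex_of_isExp hℬ hN (J.trans L) (fun a b => (hL (J a) (J b)).trans (hJ a b))
  have hp := pair_of_pullback h𝒜 hℬ J L h₁ h₂ hh
  have : LocallyPathConnectedSpace M := ChartedSpace.locallyPathConnectedSpace E M
  have : LocallyPathConnectedSpace N := ChartedSpace.locallyPathConnectedSpace E N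
  obtain ⟨hs₁, F, hF, hFe⟩ := hp.global hp.ll_all
  obtain ⟨hs₂, F', hF', hF'e⟩ := hp.symm.global hp.symm.ll_all
  have hsm := contMDiff_of_li h𝒜 hℬ fun m => (hF m).self_of_nhds
  have hsm' := contMDiff_of_li hℬ h𝒜 fun m => (hF' m).self_of_nhds
  have hx : ∀ x : E, F (expM x) = expN (L x) := fun x => by
    simpa using hFe (J.symm x)
  refine ⟨⟨⟨F, F', fun m => ?_, fun n => ?_⟩, hsm.1, hsm'.1⟩, ?_, hx, hsm.2⟩
  · obtain ⟨x, rfl⟩ := hs₁ m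
    rw [hFe, hF'e]
  · obtain ⟨x, rfl⟩ := hs₂ n
    rw [hF'e, hFe]
  · have := hx 0
    rw [hM.zero, map_zero, hN.zero] at this
    exact this

end Pool.Agent.MP_3fed84_gt

end
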